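import Pool.Agent.Q270.PV.Lim

/-!
# The permanent of a random matrix over a finite field of odd characteristic vanishes with probability `1 / q + o(1)`

Let `K` be a finite field with `q` elements, `q` odd. We prove that the proportion of the `n × n`
matrices over `K` whose permanent is zero tends to `1 / q`.

Proof. We compute in the algebra `K[x_1, …, x_N] / (x_i ^ 2)`; the product `f` of the linear forms
`ℓ_i = ∑ a_{ij} x_j` given by the rows of a `k × N` matrix has the `k × k` permanents as its
coefficients. Let `w (k, N)` be the probability that the product of `k` random linear forms in `N`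
variables is zero. By expansion along a row, the permanent of a random `n × n` matrix is zero with
probability `1 / q + (1 - 1 / q) w (n - 1, n)`.
Let `f` be the product of `k ≤ N - 2` random forms, `f ≠ 0`, and let `r` be the rank of the map
`ℓ ↦ f ℓ` on the linear forms; `w (k + 1, N)` is the mean of `q ^ (-r)` (with `r = 0` if `f = 0`).
* The image of `f ℓ ↦ f ℓ ^ 2` is a well defined quadratic map on the image, which is not zero as
  `f x_i x_j ≠ 0` for suitable `i ≠ j` and `q` is odd. It vanishes at all `f x_i`, as `x_i ^ 2 = 0`.
  So there are at most `(2 / q) q ^ r` different elements among `f x_1, …, f x_N`, and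
  `f x_i = f x_j` for a proportion of at least `(q / 2) q ^ (-r)` of the pairs `(i, j)`.
* The submodule generated by `x_i - x_j` is isomorphic to the algebra in which `x_j` is omitted, the
  form `∑ a_l x_l` acting as the form with the coefficient `a_i - a_j` at `x_i`. So for `i ≠ j` the
  probability that `f x_i = f x_j` is exactly `w (k, N - 1)`.
Together: `w (k + 1, N) ≤ (2 / q) w (k, N - 1) + (1 - 2 / q) w (k, N) + (2 / q) / N`, `N ≥ k + 2`.
As `w (N - s, N) ≤ q ^ (-s)`, it follows that `w (N - s, N) → 0` for each fixed `s ≥ 1`.
-/

set_option autoImplicit false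

open Filter Topology

namespace Pool.Agent.Results.MP_b575e9_co.PermanentVanishing

/-- For a finite field `K` of odd characteristic, the proportion of the `n × n` matrices over `K`
with permanent zero tends to `1 / |K|`. -/
theorem result (K : Type) [Field K] [Finite K] (hK : ringChar K ≠ 2) :
    Tendsto (fun n : ℕ => (Nat.card {A : Matrix (Fin n) (Fin n) K // A.permanent = 0} : ℝ) /
      (Nat.card (Matrix (Fin n) (Fin n) K) : ℝ)) atTop (𝓝 (1 / (Nat.card K : ℝ))) := by
  classical
  have _ : Fintype K := Fintype.ofFinite K
  have h2 : (2 : K) ≠ 0 := Ring.two_ne_zero hK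
  have h := Pool.Agent.Q270.PV.Z_tendsto K h2
  have e1 : Pool.Agent.Q270.PV.qr K = (Nat.card K : ℝ) := by
    rw [Nat.card_eq_fintype_card]
    rfl
  rw [e1] at h
  refine h.congr fun n => ?_
  have e2 : (Pool.Agent.Q270.PV.Z K n : ℝ) =
      (Nat.card {A : Matrix (Fin n) (Fin n) K // A.permanent = 0} : ℝ) := by
    rw [Nat.card_eq_fintype_card, Fintype.card_subtype]
    unfold Pool.Agent.Q270.PV.Z
    congr
  have e3 : (Nat.card K : ℝ) ^ (n * n) = (Nat.card (Matrix (Fin n) (Fin n) K) : ℝ) := by
    rw [Nat.card_congr (Matrix.of (m := Fin n) (n := Fin n) (α := K)).symm,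
      Nat.card_eq_fintype_card, Nat.card_eq_fintype_card,
      Pool.Agent.Q270.PV.card_mat (K := K) n n]
    push_cast
    rfl
  rw [e2, e3]

end Pool.Agent.Results.MP_b575e9_co.PermanentVanishing
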